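import Mathlib

/-!
# Weighted counts of independent sets, computed by recursion on bit masks
-/

set_option autoImplicit false

namespace Pool.Agent.TH465.Occ

open Finset

/-- a copy of `f n`, written so that `n` is evaluated first -/
def force {α : Type} (n : ℕ) (f : ℕ → α) : α :=
  match n with
  | 0 => f 0
  | k + 1 => f (k + 1)

theorem force_eq {α : Type} (n : ℕ) (f : ℕ → α) : force n f = f n := by
  cases n <;> rfl

/-- the recursion: vertices `0, …, k - 1` inside the mask `m` -/
def go (nb : ℕ → ℕ) : ℕ → ℕ → ℕ × ℕ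
  | 0, _ => (1, 0)
  | k + 1, m =>
    match go nb k m with
    | (a1, a2) =>
      if m.testBit k then
        force (m ^^^ (m &&& nb k)) fun m' =>
          match go nb k m' with
          | (b1, b2) =>
            force (2 * a1 + 3 * b1) fun z => force (2 * a2 + 3 * (b1 + b2)) fun a => (z, a)
      else force (2 * a1) fun z => force (2 * a2) fun a => (z, a)

theorem go_zero (nb : ℕ → ℕ) (m : ℕ) : go nb 0 m = (1, 0) := rfl

theorem go_succ_true (nb : ℕ → ℕ) (k m : ℕ) (h : m.testBit k = true) :
    go nb (k + 1) m = (2 * (go nb k m).1 + 3 * (go nb k (m ^^^ (m &&& nb k))).1,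
      2 * (go nb k m).2 + 3 * ((go nb k (m ^^^ (m &&& nb k))).1 +
        (go nb k (m ^^^ (m &&& nb k))).2)) := by
  rw [go]
  simp [force_eq, h]

theorem go_succ_false (nb : ℕ → ℕ) (k m : ℕ) (h : m.testBit k = false) :
    go nb (k + 1) m = (2 * (go nb k m).1, 2 * (go nb k m).2) := by
  rw [go]
  simp [force_eq, h]

open Classical in
/-- sum of `f |t|` over the independent sets `t ⊆ s` -/
noncomputable def F {V : Type} (G : SimpleGraph V) (f : ℕ → ℝ) (s : Finset V) : ℝ :=
  ∑ t ∈ s.powerset, if G.IsIndepSet (t : Set V) then f t.card else 0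

theorem F_insert {V : Type} [DecidableEq V] (G : SimpleGraph V) [DecidableRel G.Adj]
    (f : ℕ → ℝ) (s : Finset V) (a : V) (ha : a ∉ s) :
    F G f (insert a s) = F G f s + F G (fun c => f (c + 1)) (s.filter (fun x => ¬ G.Adj a x)) := by
  unfold F
  rw [sum_powerset_insert ha]
  congr 1
  symm
  have hsub : (s.filter (fun x => ¬ G.Adj a x)).powerset ⊆ s.powerset :=
    powerset_mono.2 (filter_subset _ _)
  rw [← sum_subset hsub]
  · apply sum_congr rfl
    intro t ht
    have hts := mem_powerset.1 ht
    have hat : a ∉ t := fun h => ha (mem_filter.1 (hts h)).1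
    have hiff : G.IsIndepSet ((insert a t : Finset V) : Set V) ↔ G.IsIndepSet (t : Set V) := by
      constructor
      · intro h
        exact h.mono (by simp)
      · intro h
        rw [coe_insert]
        intro x hx y hy hxy
        rcases hx with rfl | hx
        · rcases hy with rfl | hy
          · exact absurd rfl hxy
          · exact (mem_filter.1 (hts (mem_coe.1 hy))).2
        · rcases hy with rfl | hy
          · intro hadj
            exact (mem_filter.1 (hts (mem_coe.1 hx))).2 hadj.symm
          · exact h hx hy hxy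
    rw [card_insert_of_notMem hat]
    by_cases hc : G.IsIndepSet (t : Set V)
    · rw [if_pos hc, if_pos (hiff.2 hc)]
    · rw [if_neg hc, if_neg (fun h => hc (hiff.1 h))]
  · intro t ht htn
    rw [if_neg]
    intro hind
    apply htn
    rw [mem_powerset]
    intro x hx
    rw [mem_filter]
    have hxs := mem_powerset.1 ht hx
    refine ⟨hxs, ?_⟩
    have hxa : a ≠ x := fun h => ha (h ▸ hxs)
    exact hind (by simp) (by simp [hx]) hxa

theorem F_add {V : Type} (G : SimpleGraph V) (f g : ℕ → ℝ) (a b : ℝ) (s : Finset V) :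
    F G (fun c => a * f c + b * g c) s = a * F G f s + b * F G g s := by
  classical
  unfold F
  rw [mul_sum, mul_sum, ← sum_add_distrib]
  apply sum_congr rfl
  intro t _
  split_ifs <;> ring

/-- vertices below `k` in the mask `m` -/
def S (n k m : ℕ) : Finset (Fin n) := univ.filter (fun i => i.val < k ∧ m.testBit i.val = true)

theorem S_succ_true {n k m : ℕ} (hk : k < n) (h : m.testBit k = true) :
    S n (k + 1) m = insert ⟨k, hk⟩ (S n k m) := by
  ext i
  simp only [S, mem_filter, mem_univ, true_and, mem_insert, Fin.ext_iff]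
  constructor
  · rintro ⟨h1, h2⟩
    by_cases h3 : i.val = k
    · exact Or.inl h3
    · exact Or.inr ⟨by omega, h2⟩
  · rintro (h1 | ⟨h1, h2⟩)
    · rw [h1]
      exact ⟨by omega, h⟩
    · exact ⟨by omega, h2⟩

theorem S_succ_false {n k m : ℕ} (h : m.testBit k = false) :
    S n (k + 1) m = S n k m := by
  ext i
  simp only [S, mem_filter, mem_univ, true_and]
  constructor
  · rintro ⟨h1, h2⟩
    refine ⟨?_, h2⟩
    by_contra h3
    have : i.val = k := by omega
    rw [this, h] at h2
    exact Bool.false_ne_true h2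
  · rintro ⟨h1, h2⟩
    exact ⟨by omega, h2⟩

theorem S_filter {n k m : ℕ} (hk : k < n) (G : SimpleGraph (Fin n)) [DecidableRel G.Adj]
    (nb : ℕ → ℕ) (hG : ∀ i j : Fin n, G.Adj i j ↔ (nb i.val).testBit j.val = true) :
    (S n k m).filter (fun x => ¬ G.Adj ⟨k, hk⟩ x) = S n k (m ^^^ (m &&& nb k)) := by
  ext i
  simp only [S, mem_filter, mem_univ, true_and, hG, Nat.testBit_xor, Nat.testBit_and]
  cases m.testBit i.val <;> cases (nb k).testBit i.val <;> simp

theorem go_spec {n : ℕ} (G : SimpleGraph (Fin n)) (nb : ℕ → ℕ)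
    (hG : ∀ i j : Fin n, G.Adj i j ↔ (nb i.val).testBit j.val = true) :
    ∀ k m : ℕ, k ≤ n →
      ((go nb k m).1 : ℝ) = 2 ^ k * F G (fun c => (3 / 2 : ℝ) ^ c) (S n k m) ∧
      ((go nb k m).2 : ℝ) = 2 ^ k * F G (fun c => (c : ℝ) * (3 / 2 : ℝ) ^ c) (S n k m) := by
  intro k
  induction k with
  | zero =>
    intro m _
    have h0 : S n 0 m = ∅ := by
      ext i
      simp [S]
    rw [h0, go_zero]
    unfold F
    simp
  | succ k ih =>
    intro m hk
    have hk' : k < n := hk
    by_cases h : m.testBit k = true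
    · rw [go_succ_true nb k m h, S_succ_true hk' h]
      have hnot : (⟨k, hk'⟩ : Fin n) ∉ S n k m := by
        simp [S]
      have : DecidableRel G.Adj := Classical.decRel _
      rw [F_insert G _ _ _ hnot, F_insert G _ _ _ hnot, S_filter hk' G nb hG]
      obtain ⟨a1, a2⟩ := ih m (by omega)
      obtain ⟨b1, b2⟩ := ih (m ^^^ (m &&& nb k)) (by omega)
      set m' := m ^^^ (m &&& nb k) with hm'
      have e1 : F G (fun c => (3 / 2 : ℝ) ^ (c + 1)) (S n k m') =
          (3 / 2) * F G (fun c => (3 / 2 : ℝ) ^ c) (S n k m') := by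
        have := F_add G (fun c => (3 / 2 : ℝ) ^ c) (fun c => (3 / 2 : ℝ) ^ c) (3 / 2) 0 (S n k m')
        rw [zero_mul, add_zero] at this
        rw [← this]
        congr 1
        funext c
        ring
      have e2 : F G (fun c => ((c + 1 : ℕ) : ℝ) * (3 / 2 : ℝ) ^ (c + 1)) (S n k m') =
          (3 / 2) * F G (fun c => (c : ℝ) * (3 / 2 : ℝ) ^ c) (S n k m') +
          (3 / 2) * F G (fun c => (3 / 2 : ℝ) ^ c) (S n k m') := by
        rw [← F_add G (fun c => (c : ℝ) * (3 / 2 : ℝ) ^ c) (fun c => (3 / 2 : ℝ) ^ c) (3 / 2) (3 / 2)]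
        congr 1
        funext c
        push_cast
        ring
      rw [e1, e2]
      constructor
      · push_cast
        rw [a1, b1]
        ring
      · push_cast
        rw [a2, b1, b2]
        ring
    · have h' : m.testBit k = false := by simpa using h
      rw [go_succ_false nb k m h', S_succ_false h']
      obtain ⟨a1, a2⟩ := ih m (by omega)
      constructor
      · push_cast
        rw [a1]
        ring
      · push_cast
        rw [a2]
        ring

theorem go_univ {n : ℕ} (G : SimpleGraph (Fin n)) (nb : ℕ → ℕ)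
    (hG : ∀ i j : Fin n, G.Adj i j ↔ (nb i.val).testBit j.val = true) (z a : ℕ)
    (hgo : go nb n (2 ^ n - 1) = (z, a)) :
    (z : ℝ) = 2 ^ n * F G (fun c => (3 / 2 : ℝ) ^ c) univ ∧
      (a : ℝ) = 2 ^ n * F G (fun c => (c : ℝ) * (3 / 2 : ℝ) ^ c) univ := by
  have h1 := go_spec G nb hG n (2 ^ n - 1) le_rfl
  have h2 : S n n (2 ^ n - 1) = univ := by
    ext i
    simp only [S, mem_filter, mem_univ, true_and, iff_true]
    exact ⟨i.isLt, by rw [Nat.testBit_two_pow_sub_one]; simp⟩
  rw [h2, hgo] at h1
  exact h1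

def nbH (k : ℕ) : ℕ := [74000, 132240, 68104, 25604, 579, 303168, 18480, 114690, 35841, 36884,
  262410, 131396, 410112, 131113, 4296, 928, 262277, 14338, 70688].getD k 0

def nbG (k : ℕ) : ℕ := [459264, 34052, 12802, 106752, 265728, 534592, 86048, 835584, 18442, 16405,
  589842, 131376, 655428, 262188, 960, 131210, 1097, 38913, 8337, 5280].getD k 0

theorem goH : go nbH 19 (2 ^ 19 - 1) = (5719875584, 25543704576) := by decide +kernel

theorem goG : go nbG 20 (2 ^ 20 - 1) = (18817220608, 88317493248) := by decide +kernel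

/-- The Robertson graph. -/
def H : SimpleGraph (Fin 19) where
  Adj i j := (nbH i.val).testBit j.val = true
  symm := ⟨by decide +kernel⟩
  loopless := ⟨by decide +kernel⟩

/-- A 4-regular triangle-free graph on 20 vertices. -/
def G : SimpleGraph (Fin 20) where
  Adj i j := (nbG i.val).testBit j.val = true
  symm := ⟨by decide +kernel⟩
  loopless := ⟨by decide +kernel⟩

instance : DecidableRel H.Adj := fun i j =>
  inferInstanceAs (Decidable ((nbH i.val).testBit j.val = true))

instance : DecidableRel G.Adj := fun i j =>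
  inferInstanceAs (Decidable ((nbG i.val).testBit j.val = true))

theorem degH : ∀ i : Fin 19, (univ.filter (fun j => H.Adj i j)).card = 4 := by decide +kernel

theorem degG : ∀ i : Fin 20, (univ.filter (fun j => G.Adj i j)).card = 4 := by decide +kernel

theorem triG : ∀ i j k : Fin 20, G.Adj i j → G.Adj j k → ¬ G.Adj i k := by decide +kernel

theorem triH : ∀ i j k : Fin 19, H.Adj i j → H.Adj j k → ¬ H.Adj i k := by decide +kernel

theorem quadH : ∀ i j k : Fin 19, H.Adj i j → H.Adj j k → i ≠ k → ∀ l : Fin 19, j ≠ l →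
    H.Adj k l → ¬ H.Adj i l := by decide +kernel

end Pool.Agent.TH465.Occ
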